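import Pool.Agent.H14.PD.Stmts

/-!
Project PD, module LEN: the length function.
-/

set_option autoImplicit false

namespace Pool.Agent.H14.PD

theorem len_surj (hP : PRB) {S : Type} (cm : S → S → Prop) (g : Wg cm) :
    ∃ w : List S, pr cm w = g := by
  obtain ⟨p1, p2, p3, p4, p5, p6⟩ := hP S cm
  have key : ∀ x : FreeGroup S, ∃ w : List S, pr cm w = PresentedGroup.mk (wrel cm) x := by
    intro x
    induction x using FreeGroup.induction_on with
    | C1 => exact ⟨[], by rw [p1, map_one]⟩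
    | of s => exact ⟨[s], by rw [p2, p1, mul_one]; rfl⟩
    | inv_of s _ =>
      refine ⟨[s], ?_⟩
      rw [p2, p1, mul_one, map_inv]
      exact eq_inv_of_mul_eq_one_left (p4 s)
    | mul x y hx hy =>
      obtain ⟨u, hu⟩ := hx
      obtain ⟨v, hv⟩ := hy
      exact ⟨u ++ v, by rw [p3, hu, hv, map_mul]⟩
  obtain ⟨x, rfl⟩ := PresentedGroup.mk_surjective (wrel cm) g
  exact key x

theorem pd_len : M_LEN := by
  intro hP hT hR hV S cm hs hi
  obtain ⟨p1, p2, p3, p4, p5, p6⟩ := hP S cm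
  obtain ⟨t1, t2, t3, t4, t5, t6, t7⟩ := hT S cm hs
  obtain ⟨r1, r2, r3, r4⟩ := hR S cm
  have c1 : ∀ w, len cm (pr cm w) ≤ w.length := by
    intro w
    exact Nat.sInf_le ⟨w, rfl, rfl⟩
  have hdel : ∀ (a u b : List S) (s : S), (∀ t ∈ u, cm s t) →
      pr cm (a ++ s :: (u ++ s :: b)) = pr cm (a ++ (u ++ b)) := by
    intro a u b s hu
    have h1 := t5 _ _ (t6 s u hu)
    rw [p2, p3, p2, p1, mul_one] at h1
    rw [p3, p2, p3, p2, p3, p3]
    have h2 : io cm s * (pr cm u * (io cm s * pr cm b)) =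
        (io cm s * pr cm u) * io cm s * pr cm b := by group
    rw [h2, h1]
    have h3 : pr cm u * io cm s * io cm s * pr cm b =
        pr cm u * (io cm s * io cm s) * pr cm b := by group
    rw [h3, p4, mul_one]
  have c5 : ∀ g, ∃ w, Rd cm w ∧ pr cm w = g ∧ w.length = len cm g := by
    intro g
    obtain ⟨w0, hw0⟩ := len_surj hP cm g
    have hne : {n | ∃ w : List S, w.length = n ∧ pr cm w = g}.Nonempty := ⟨_, w0, rfl, hw0⟩
    obtain ⟨w, hw1, hw2⟩ := Nat.sInf_mem hne
    refine ⟨w, ?_, hw2, hw1⟩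
    by_contra hcon
    obtain ⟨a, u, b, s, he, hu⟩ := r3 w hcon
    have h1 := c1 (a ++ (u ++ b))
    rw [← hdel a u b s hu, ← he, hw2] at h1
    have h2 : w.length = len cm g := hw1
    rw [← h2, he] at h1
    simp only [List.length_append, List.length_cons] at h1
    omega
  have c3 : ∀ g h, len cm (g * h) ≤ len cm g + len cm h := by
    intro g h
    obtain ⟨u, -, hu, hu'⟩ := c5 g
    obtain ⟨v, -, hv, hv'⟩ := c5 h
    have := c1 (u ++ v)
    rw [p3, hu, hv, List.length_append, hu', hv'] at this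
    exact this
  have c4' : ∀ g, len cm g⁻¹ ≤ len cm g := by
    intro g
    obtain ⟨u, -, hu, hu'⟩ := c5 g
    have := c1 u.reverse
    rw [p6, hu, List.length_reverse, hu'] at this
    exact this
  refine ⟨c1, ?_, c3, ?_, c5⟩
  · intro w hw
    obtain ⟨w', h1, h2, h3⟩ := c5 (pr cm w)
    rw [← h3]
    exact (t3 _ _ (hV S cm hs hi w w' hw h1 h2.symm)).length_eq.symm
  · intro g
    apply le_antisymm (c4' g)
    have := c4' g⁻¹
    rwa [inv_inv] at this

end Pool.Agent.H14.PD
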