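import Pool.Agent.H14.PD.Stmts

/-!
Project PD, module RDT: reducedness is invariant under trace equivalence.
-/

set_option autoImplicit false

namespace Pool.Agent.H14.PD

/-- no occurrence of `s` in `w` can be moved to the front -/
def rdt_good {S : Type} (cm : S → S → Prop) (s : S) : List S → Prop
  | [] => True
  | t :: w => t ≠ s ∧ (cm s t → rdt_good cm s w)

theorem rdt_good_iff {S : Type} (cm : S → S → Prop) (s : S) (w : List S) :
    rdt_good cm s w ↔ ∀ u b, w = u ++ s :: b → ∃ t ∈ u, ¬ cm s t := by
  induction w with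
  | nil => simp [rdt_good]
  | cons t w ih =>
    simp only [rdt_good]
    constructor
    · rintro ⟨h1, h2⟩ u b he
      rcases u with _ | ⟨x, u⟩
      · simp only [List.nil_append, List.cons.injEq] at he
        exact absurd he.1 h1
      · simp only [List.cons_append, List.cons.injEq] at he
        obtain ⟨rfl, he⟩ := he
        by_cases hc : cm s t
        · obtain ⟨r, hr, hr'⟩ := ih.1 (h2 hc) u b he
          exact ⟨r, List.mem_cons_of_mem _ hr, hr'⟩
        · exact ⟨t, List.mem_cons_self, hc⟩
    · intro h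
      refine ⟨?_, ?_⟩
      · rintro rfl
        obtain ⟨r, hr, -⟩ := h [] w rfl
        simp at hr
      · intro hc
        rw [ih]
        intro u b he
        obtain ⟨r, hr, hr'⟩ := h (t :: u) b (by rw [he]; rfl)
        rcases List.mem_cons.1 hr with rfl | hr
        · exact absurd hc hr'
        · exact ⟨r, hr, hr'⟩

theorem rdt_cons {S : Type} (cm : S → S → Prop) (s : S) (w : List S) :
    Rd cm (s :: w) ↔ rdt_good cm s w ∧ Rd cm w := by
  rw [rdt_good_iff]
  constructor
  · intro h
    refine ⟨fun u b he => h [] u b s (by rw [he]; rfl), ?_⟩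
    intro a u b r he
    exact h (s :: a) u b r (by rw [he]; rfl)
  · rintro ⟨h1, h2⟩ a u b r he
    rcases a with _ | ⟨x, a⟩
    · simp only [List.nil_append, List.cons.injEq] at he
      obtain ⟨rfl, he⟩ := he
      exact h1 u b he
    · simp only [List.cons_append, List.cons.injEq] at he
      exact h2 a u b r he.2

theorem rdt_good_swap {S : Type} {cm : S → S → Prop} (hs : ∀ s t, cm s t → cm t s) (r : S)
    {s t : S} (hst : cm s t) (a b : List S) (h : rdt_good cm r (a ++ s :: t :: b)) :
    rdt_good cm r (a ++ t :: s :: b) := by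
  induction a with
  | nil =>
    simp only [List.nil_append, rdt_good] at h ⊢
    obtain ⟨h1, h2⟩ := h
    refine ⟨?_, fun h3 => ⟨h1, fun h4 => (h2 h4).2 h3⟩⟩
    rintro rfl
    exact (h2 (hs _ _ hst)).1 rfl
  | cons x a ih =>
    simp only [List.cons_append, rdt_good] at h ⊢
    exact ⟨h.1, fun h3 => ih (h.2 h3)⟩

theorem rdt_swap {S : Type} {cm : S → S → Prop} (hs : ∀ s t, cm s t → cm t s) {s t : S} (hst : cm s t) (a b : List S)
    (h : Rd cm (a ++ s :: t :: b)) : Rd cm (a ++ t :: s :: b) := by
  induction a with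
  | nil =>
    simp only [List.nil_append] at h ⊢
    rw [rdt_cons, rdt_cons] at h ⊢
    simp only [rdt_good] at h ⊢
    obtain ⟨⟨h1, h2⟩, h3, h4⟩ := h
    refine ⟨⟨fun e => h1 e.symm, fun _ => h3⟩, h2 hst, h4⟩
  | cons x a ih =>
    simp only [List.cons_append] at h ⊢
    rw [rdt_cons] at h ⊢
    exact ⟨rdt_good_swap hs x hst a b h.1, ih h.2⟩

theorem pd_rdt : RDT := by
  intro S cm hs _ u v huv
  induction huv with
  | refl => exact id
  | tail _ h2 ih =>
    intro h
    obtain ⟨a, b, s, t, hst⟩ := h2
    exact rdt_swap hs hst a b (ih h)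

end Pool.Agent.H14.PD
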