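import Pool.Agent.H14.PD.Stmts

/-!
Project PD, module TRC: traced words in a complex.
-/

set_option autoImplicit false

namespace Pool.Agent.H14.PD

theorem trc_swap (hB : TRB) {Y S : Type} (C : Cx Y S) (y : Y) {w w' : List S}
    (h : Sw C.cm w w') (hw : Tr C.lab C.act y w) :
    Tr C.lab C.act y w' ∧ en C.act y w' = en C.act y w := by
  obtain ⟨b1, b2, b3, b4⟩ := hB Y S C.lab C.act
  obtain ⟨a, b, s, t, hst⟩ := h
  rw [b1] at hw ⊢
  rw [b2, b2]
  obtain ⟨h1, h2, h3, h4⟩ := hw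
  have k1 := C.cv _ _ _ hst h2 h3
  have k2 := C.sq _ _ _ hst h2 k1
  have k3 := C.sq _ _ _ (C.cm_symm _ _ hst) k1 h2
  refine ⟨⟨h1, k1, k3.1, ?_⟩, ?_⟩
  · rw [← k2.2]
    exact h4
  · show en C.act (C.act (C.act (en C.act y a) t) s) b =
      en C.act (C.act (C.act (en C.act y a) s) t) b
    rw [k2.2]

theorem trc_tq (hB : TRB) {Y S : Type} (C : Cx Y S) (y : Y) {w w' : List S}
    (h : Tq C.cm w w') (hw : Tr C.lab C.act y w) :
    Tr C.lab C.act y w' ∧ en C.act y w' = en C.act y w := by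
  induction h with
  | refl => exact ⟨hw, rfl⟩
  | tail _ h2 ih =>
    have h3 := trc_swap hB C y h2 ih.1
    exact ⟨h3.1, h3.2.trans ih.2⟩

theorem pd_trc : M_TRC := by
  intro hP hT hR hRT hV hB Y S C
  obtain ⟨p1, p2, p3, p4, p5, p6⟩ := hP S C.cm
  obtain ⟨t1, t2, t3, t4, t5, t6, t7⟩ := hT S C.cm C.cm_symm
  obtain ⟨r1, r2, r3, r4⟩ := hR S C.cm
  obtain ⟨b1, b2, b3, b4⟩ := hB Y S C.lab C.act
  have c2 : ∀ y a u b s, (∀ t ∈ u, C.cm s t) → Tr C.lab C.act y (a ++ s :: (u ++ s :: b)) →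
      Tr C.lab C.act y (a ++ u ++ b) ∧
        en C.act y (a ++ u ++ b) = en C.act y (a ++ s :: (u ++ s :: b)) := by
    intro y a u b s hu hw
    have h1 : Tq C.cm (a ++ s :: (u ++ s :: b)) (a ++ (u ++ [s]) ++ s :: b) := by
      have h2 := t2 _ _ a (s :: b) (t6 s u hu)
      have h3 : a ++ s :: u ++ s :: b = a ++ s :: (u ++ s :: b) := by simp
      rw [h3] at h2
      exact h2
    obtain ⟨h2, h3⟩ := trc_tq hB C y h1 hw
    have h4 : a ++ (u ++ [s]) ++ s :: b = (a ++ u) ++ (s :: s :: b) := by simp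
    rw [h4] at h2 h3
    rw [b1] at h2
    obtain ⟨h5, h6, h7, h8⟩ := h2
    have h9 := (C.inv _ _ h6).2
    rw [h9] at h8
    refine ⟨(b1 _ _ _).2 ⟨h5, h8⟩, ?_⟩
    rw [← h3, b2 y (a ++ u) b, b2 y (a ++ u) (s :: s :: b)]
    show en C.act (en C.act y (a ++ u)) b =
      en C.act (C.act (C.act (en C.act y (a ++ u)) s) s) b
    rw [h9]
  have hdel : ∀ (a u b : List S) (s : S), (∀ t ∈ u, C.cm s t) →
      pr C.cm (a ++ s :: (u ++ s :: b)) = pr C.cm (a ++ u ++ b) := by
    intro a u b s hu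
    have h1 := t5 _ _ (t6 s u hu)
    rw [p2, p3, p2, p1, mul_one] at h1
    rw [p3, p2, p3, p2, p3, p3]
    have h2 : io C.cm s * (pr C.cm u * (io C.cm s * pr C.cm b)) =
        (io C.cm s * pr C.cm u) * io C.cm s * pr C.cm b := by group
    rw [h2, h1]
    have h3 : pr C.cm u * io C.cm s * io C.cm s * pr C.cm b =
        pr C.cm u * (io C.cm s * io C.cm s) * pr C.cm b := by group
    rw [h3, p4, mul_one, mul_assoc]
  have c3 : ∀ (n : ℕ) (y : Y) (w : List S), w.length = n → Tr C.lab C.act y w →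
      ∃ w', Rd C.cm w' ∧ Tr C.lab C.act y w' ∧
      pr C.cm w' = pr C.cm w ∧ en C.act y w' = en C.act y w ∧ w'.length ≤ w.length ∧
      ∀ s ∈ w', s ∈ w := by
    intro n
    induction n using Nat.strong_induction_on with
    | _ n ih =>
      intro y w hn hw
      by_cases hRd : Rd C.cm w
      · exact ⟨w, hRd, hw, rfl, rfl, le_rfl, fun s hs => hs⟩
      · obtain ⟨a, u, b, s, he, hu⟩ := r3 w hRd
        subst he
        obtain ⟨h1, h2⟩ := c2 y a u b s hu hw
        have hlt : (a ++ u ++ b).length < n := by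
          rw [← hn]
          simp only [List.length_append, List.length_cons]
          omega
        obtain ⟨w', k1, k2, k3, k4, k5, k6⟩ := ih _ hlt y (a ++ u ++ b) rfl h1
        refine ⟨w', k1, k2, ?_, ?_, ?_, ?_⟩
        · rw [k3, hdel a u b s hu]
        · rw [k4, h2]
        · rw [hn]
          exact k5.trans hlt.le
        · intro r hr
          have := k6 r hr
          simp only [List.mem_append, List.mem_cons] at this ⊢
          tauto
  refine ⟨fun y w w' h hw => trc_tq hB C y h hw, c2, fun y w hw => c3 _ y w rfl hw, ?_⟩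
  intro y u v hu hv he
  obtain ⟨u', k1, k2, k3, k4, -, -⟩ := c3 _ y u rfl hu
  obtain ⟨v', l1, l2, l3, l4, -, -⟩ := c3 _ y v rfl hv
  have htq : Tq C.cm u' v' :=
    hV S C.cm C.cm_symm C.cm_irr u' v' k1 l1 (by rw [k3, l3, he])
  have := (trc_tq hB C y htq k2).2
  rw [← k4, ← l4, this]

end Pool.Agent.H14.PD
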